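import Pool.Agent.Lib.SG.Mrt

/-!
MP_00e23e_nt, project NL (all classes, no lock), density (helper10): the squarefree integers n ≤ z all of whose prime factors are
≤ z^κ have positive density, for every κ > 0. Elementary: squarefree numbers (κ = 1), and if the claim holds for the exponent 1/u
then for 1/(u + 1/2): n = p n', p prime in (√y, y], y = z^(1/(u + 1/2)).
-/

set_option autoImplicit false

namespace Pool.Agent.Lib.NLD

open Finset

private lemma sq_sum (m : ℕ) (hm : 2 ≤ m) : ∑ j ∈ Icc 2 m, 1 / ((j : ℝ) * j) ≤ 3 / 4 - 1 / m := by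
  induction m, hm using Nat.le_induction with
  | base => norm_num
  | succ m hm ih =>
    have h0 : (2 : ℝ) ≤ m := by exact_mod_cast hm
    rw [Finset.sum_Icc_succ_top (by omega)]
    have h1 : 1 / (((m + 1 : ℕ) : ℝ) * ((m + 1 : ℕ) : ℝ)) ≤ 1 / (m : ℝ) - 1 / ((m + 1 : ℕ) : ℝ) := by
      push_cast
      rw [div_sub_div _ _ (by positivity) (by positivity), div_le_div_iff₀ (by positivity) (by positivity)]
      nlinarith
    linarith

/-- the number of the squarefree integers -/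
theorem sqf (z : ℝ) (hz : 2 ≤ z) : z / 8 ≤ (#((Icc 1 ⌊z⌋₊).filter Squarefree) : ℝ) := by
  set N := ⌊z⌋₊ with hN
  have hN2 : 2 ≤ N := Nat.le_floor (by exact_mod_cast hz)
  have hN1 : z - 1 < N := by
    have := Nat.lt_floor_add_one z
    rw [← hN] at this
    linarith
  have h1 : #((Icc 1 N).filter Squarefree) + #((Icc 1 N).filter (fun n => ¬ Squarefree n)) = N := by
    rw [Finset.card_filter_add_card_filter_not]
    simp
  have h2 : #((Icc 1 N).filter (fun n => ¬ Squarefree n)) ≤ ∑ j ∈ Icc 2 N, N / (j * j) := by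
    have h3 : (Icc 1 N).filter (fun n => ¬ Squarefree n) ⊆
        (Icc 2 N).biUnion (fun j => (Ioc 0 N).filter (fun n => j * j ∣ n)) := by
      intro n hn
      rw [Finset.mem_filter, Finset.mem_Icc] at hn
      obtain ⟨⟨h4, h5⟩, h6⟩ := hn
      rw [Nat.squarefree_iff_prime_squarefree] at h6
      push Not at h6
      obtain ⟨p, hp, hpp⟩ := h6
      rw [Finset.mem_biUnion]
      refine ⟨p, ?_, ?_⟩
      · rw [Finset.mem_Icc]
        refine ⟨hp.two_le, ?_⟩
        have h7 := Nat.le_of_dvd (by omega) hpp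
        have h8 : p ≤ p * p := Nat.le_mul_of_pos_left p hp.pos
        omega
      · rw [Finset.mem_filter, Finset.mem_Ioc]
        exact ⟨⟨by omega, h5⟩, hpp⟩
    refine (Finset.card_le_card h3).trans (Finset.card_biUnion_le.trans ?_)
    refine Finset.sum_le_sum fun j _ => ?_
    rw [Nat.Ioc_filter_dvd_card_eq_div]
  have h4 : ((∑ j ∈ Icc 2 N, N / (j * j) : ℕ) : ℝ) ≤ (N : ℝ) * (3 / 4) := by
    push_cast
    calc ∑ j ∈ Icc 2 N, ((N / (j * j) : ℕ) : ℝ) ≤ ∑ j ∈ Icc 2 N, (N : ℝ) * (1 / ((j : ℝ) * j)) := by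
          refine Finset.sum_le_sum fun j _ => ?_
          refine Nat.cast_div_le.trans (le_of_eq ?_)
          push_cast
          ring
      _ = (N : ℝ) * ∑ j ∈ Icc 2 N, 1 / ((j : ℝ) * j) := by rw [Finset.mul_sum]
      _ ≤ (N : ℝ) * (3 / 4) := by
          have h5 := sq_sum N hN2
          have h6 : (0 : ℝ) ≤ 1 / N := by positivity
          exact mul_le_mul_of_nonneg_left (by linarith) (by positivity)
  have h5 : (#((Icc 1 N).filter Squarefree) : ℝ) + (#((Icc 1 N).filter (fun n => ¬ Squarefree n)) : ℝ) = N := by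
    exact_mod_cast h1
  have h6 : (#((Icc 1 N).filter (fun n => ¬ Squarefree n)) : ℝ) ≤ (N : ℝ) * (3 / 4) :=
    le_trans (by exact_mod_cast h2) h4
  linarith

/-- the squarefree integers up to z whose primes are at most z^(1/u) -/
noncomputable def Sm (u z : ℝ) : Finset ℕ := by
  classical
  exact (Icc 1 ⌊z⌋₊).filter (fun n => Squarefree n ∧ ∀ p : ℕ, p.Prime → p ∣ n → (p : ℝ) ≤ z ^ (1 / u))

theorem mem_Sm {u z : ℝ} {n : ℕ} : n ∈ Sm u z ↔ (1 ≤ n ∧ n ≤ ⌊z⌋₊) ∧ Squarefree n ∧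
    ∀ p : ℕ, p.Prime → p ∣ n → (p : ℝ) ≤ z ^ (1 / u) := by
  classical
  unfold Sm
  rw [Finset.mem_filter, Finset.mem_Icc]

/-- positive density -/
def Pd (u : ℝ) : Prop := ∃ c z0 : ℝ, 0 < c ∧ 2 ≤ z0 ∧ ∀ z : ℝ, z0 ≤ z → c * z ≤ (#(Sm u z) : ℝ)

theorem Pd_one : Pd 1 := by
  refine ⟨1 / 8, 2, by norm_num, le_rfl, fun z hz => ?_⟩
  have h1 : (Icc 1 ⌊z⌋₊).filter Squarefree ⊆ Sm 1 z := by
    intro n hn
    rw [Finset.mem_filter, Finset.mem_Icc] at hn
    rw [mem_Sm]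
    refine ⟨hn.1, hn.2, fun p hp hpn => ?_⟩
    rw [div_one, Real.rpow_one]
    have h2 := Nat.le_of_dvd (by omega) hpn
    exact (Nat.le_floor_iff (by linarith)).1 (h2.trans hn.1.2)
  have h2 := sqf z hz
  have h3 : (#((Icc 1 ⌊z⌋₊).filter Squarefree) : ℝ) ≤ (#(Sm 1 z) : ℝ) := by
    exact_mod_cast Finset.card_le_card h1
  linarith

/-- the number of the large prime factors -/
private lemma few {z r v : ℝ} (hr : 1 < r) (hz : z ≤ r ^ v) (I : Finset ℕ) (hI : ∀ p ∈ I, p.Prime ∧ r < (p : ℝ)) (d : ℕ)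
    (hd : 1 ≤ d) (hdz : (d : ℝ) ≤ z) : (#(I.filter (fun p => p ∣ d)) : ℝ) ≤ v := by
  set J := I.filter (fun p => p ∣ d) with hJ
  have h1 : ∏ p ∈ J, p ∣ d := by
    refine Finset.prod_primes_dvd d (fun p hp => ?_) (fun p hp => ?_)
    · exact (hI p (Finset.mem_filter.1 hp).1).1.prime
    · exact (Finset.mem_filter.1 hp).2
  have h2 : ((∏ p ∈ J, p : ℕ) : ℝ) ≤ d := by exact_mod_cast Nat.le_of_dvd hd h1
  have h3 : r ^ (#J : ℕ) ≤ ((∏ p ∈ J, p : ℕ) : ℝ) := by
    push_cast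
    rw [← Finset.prod_const]
    exact Finset.prod_le_prod (fun p _ => by linarith) fun p hp => (hI p (Finset.mem_filter.1 hp).1).2.le
  have h4 : r ^ ((#J : ℕ) : ℝ) ≤ r ^ v := by
    rw [Real.rpow_natCast]
    linarith
  exact (Real.rpow_le_rpow_left_iff hr).1 h4

/-- the multiples of p in the interval -/
private lemma mults (w : ℝ) (p : ℕ) (hw : 0 ≤ w) :
    (#((Icc 1 ⌊w⌋₊).filter (fun n => p ∣ n)) : ℝ) ≤ w / p := by
  have h1 : (Icc 1 ⌊w⌋₊).filter (fun n => p ∣ n) = (Ioc 0 ⌊w⌋₊).filter (fun n => p ∣ n) := rfl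
  rw [h1, Nat.Ioc_filter_dvd_card_eq_div]
  refine Nat.cast_div_le.trans ?_
  exact div_le_div_of_nonneg_right (Nat.floor_le hw) (by positivity)

/-- one prime -/
private lemma one {u z c y r : ℝ} (hu : 1 ≤ u) (hz : 1 ≤ z) (hy : y = z ^ (1 / (u + 1 / 2))) (hr : r = Real.sqrt y)
    (hc : 2 / c ≤ r) (hc0 : 0 < c) {p : ℕ} (hp : p.Prime) (hp1 : r < p) (hp2 : (p : ℝ) ≤ y)
    (hS : c * (z / p) ≤ (#(Sm u (z / p)) : ℝ)) :
    c / 2 * z * (1 / p) ≤ (#((Sm (u + 1 / 2) z).filter (fun d => p ∣ d)) : ℝ) := by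
  have hp0 : (0 : ℝ) < p := by exact_mod_cast hp.pos
  have hw0 : 0 ≤ z / p := by positivity
  have hy0 : 0 < y := by rw [hy]; positivity
  set T := (Sm u (z / p)).filter (fun n => ¬ p ∣ n) with hT
  have h1 : (#(Sm u (z / p)) : ℝ) ≤ #T + (z / p) / p := by
    have h2 : #(Sm u (z / p)) = #((Sm u (z / p)).filter (fun n => p ∣ n)) + #T :=
      (Finset.card_filter_add_card_filter_not _).symm
    have h3 : #((Sm u (z / p)).filter (fun n => p ∣ n)) ≤ #((Icc 1 ⌊z / p⌋₊).filter (fun n => p ∣ n)) := by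
      refine Finset.card_le_card fun n hn => ?_
      rw [Finset.mem_filter, mem_Sm] at hn
      rw [Finset.mem_filter, Finset.mem_Icc]
      exact ⟨hn.1.1, hn.2⟩
    have h4 := mults (z / p) p hw0
    have h5 : (#(Sm u (z / p)) : ℝ) = (#((Sm u (z / p)).filter (fun n => p ∣ n)) : ℝ) + #T := by exact_mod_cast h2
    have h6 : (#((Sm u (z / p)).filter (fun n => p ∣ n)) : ℝ) ≤ (#((Icc 1 ⌊z / p⌋₊).filter (fun n => p ∣ n)) : ℝ) := by
      exact_mod_cast h3
    linarith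
  have h2 : #T ≤ #((Sm (u + 1 / 2) z).filter (fun d => p ∣ d)) := by
    refine Finset.card_le_card_of_injOn (fun n => p * n) ?_ ?_
    · intro n hn
      rw [Finset.mem_coe, hT, Finset.mem_filter, mem_Sm] at hn
      obtain ⟨⟨⟨n1, n2⟩, n3, n4⟩, n5⟩ := hn
      rw [Finset.mem_coe, Finset.mem_filter, mem_Sm]
      have n6 : (n : ℝ) ≤ z / p := (Nat.le_floor_iff hw0).1 n2
      have hw1 : 1 ≤ z / p := le_trans (by exact_mod_cast n1) n6
      refine ⟨⟨⟨Nat.mul_pos hp.pos n1, Nat.le_floor ?_⟩, ?_, ?_⟩, Dvd.intro _ rfl⟩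
      · push_cast
        rw [le_div_iff₀ hp0] at n6
        linarith
      · rw [Nat.squarefree_mul ((Nat.Prime.coprime_iff_not_dvd hp).2 n5)]
        exact ⟨hp.squarefree, n3⟩
      · intro q hq hqd
        rcases (Nat.Prime.dvd_mul hq).1 hqd with h | h
        · rw [(Nat.prime_dvd_prime_iff_eq hq hp).1 h, ← hy]
          exact hp2
        · refine (n4 q hq h).trans ?_
          have h7 : z / p ≤ z ^ (1 - 1 / (2 * (u + 1 / 2))) := by
            have h8 : z ^ (1 / (2 * (u + 1 / 2))) ≤ p := by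
              have h9 : z ^ (1 / (2 * (u + 1 / 2))) = r := by
                rw [hr, hy, Real.sqrt_eq_rpow, ← Real.rpow_mul (by linarith)]
                congr 1
                field_simp
              linarith
            rw [Real.rpow_sub (by linarith), Real.rpow_one]
            exact div_le_div_of_nonneg_left (by linarith) (by positivity) h8
          refine (Real.rpow_le_rpow hw0 h7 (by positivity)).trans (le_of_eq ?_)
          rw [← Real.rpow_mul (by linarith)]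
          congr 1
          field_simp
          ring
    · intro n _ n' _ hnn
      exact Nat.eq_of_mul_eq_mul_left hp.pos hnn
  have h3 : (#T : ℝ) ≤ (#((Sm (u + 1 / 2) z).filter (fun d => p ∣ d)) : ℝ) := by exact_mod_cast h2
  have h4 : z / p / p ≤ c / 2 * (z / p) := by
    rw [div_le_iff₀ hp0]
    have h5 : 2 / c ≤ p := by linarith
    rw [div_le_iff₀ hc0] at h5
    nlinarith [hw0]
  have h5 : c / 2 * z * (1 / p) = c / 2 * (z / p) := by ring
  rw [h5]
  linarith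

/-- the induction step -/
theorem Pd_step {u : ℝ} (hu : 1 ≤ u) (h : Pd u) : Pd (u + 1 / 2) := by
  obtain ⟨c, z0, hc, hz0, H⟩ := h
  obtain ⟨C, hC, hM⟩ := Pool.Agent.Lib.SG.tMrt
  have e1 : 0 < 1 / (2 * u + 1) := by positivity
  have e2 : 0 < 1 - 1 / (u + 1 / 2) := by
    rw [sub_pos, div_lt_one (by linarith)]
    linarith
  have f1 := (tendsto_rpow_atTop e1).eventually_ge_atTop (max (max (2 / c) (Real.exp (6 * C))) 2)
  have f2 := (tendsto_rpow_atTop e2).eventually_ge_atTop z0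
  obtain ⟨Z, hZ⟩ := Filter.eventually_atTop.1 (f1.and f2)
  refine ⟨c / (8 * (u + 1 / 2)), max Z 2, by positivity, le_max_right _ _, fun z hz => ?_⟩
  have hz2 : 2 ≤ z := (le_max_right _ _).trans hz
  obtain ⟨g1, g2⟩ := hZ z ((le_max_left _ _).trans hz)
  obtain ⟨y, hy⟩ : ∃ y, y = z ^ (1 / (u + 1 / 2)) := ⟨_, rfl⟩
  obtain ⟨r, hr⟩ : ∃ r, r = Real.sqrt y := ⟨_, rfl⟩
  have hz0' : 0 < z := by linarith
  have hy0 : 0 < y := by rw [hy]; positivity
  have hr' : r = z ^ (1 / (2 * u + 1)) := by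
    rw [hr, hy, Real.sqrt_eq_rpow, ← Real.rpow_mul hz0'.le]
    congr 1
    field_simp
  rw [← hr'] at g1
  have r1 : 2 / c ≤ r := ((le_max_left _ _).trans (le_max_left _ _)).trans g1
  have r2 : Real.exp (6 * C) ≤ r := ((le_max_right _ _).trans (le_max_left _ _)).trans g1
  have r3 : 2 ≤ r := (le_max_right _ _).trans g1
  have hrr : r * r = y := by rw [hr]; exact Real.mul_self_sqrt hy0.le
  have hry : r ≤ y := by nlinarith
  have hlr : 6 * C ≤ Real.log r := by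
    rw [Real.le_log_iff_exp_le (by linarith)]
    exact r2
  have hlr0 : 0 < Real.log r := Real.log_pos (by linarith)
  set I := (Ioc ⌊r⌋₊ ⌊y⌋₊).filter Nat.Prime with hI
  have hI1 : ∀ p ∈ I, p.Prime ∧ r < (p : ℝ) ∧ (p : ℝ) ≤ y := by
    intro p hp
    rw [hI, Finset.mem_filter, Finset.mem_Ioc] at hp
    exact ⟨hp.2, Nat.lt_of_floor_lt hp.1.1, (Nat.le_floor_iff hy0.le).1 hp.1.2⟩
  have hsum : 1 / 2 ≤ ∑ p ∈ I, 1 / (p : ℝ) := by
    have h1 := (abs_le.1 (hM r y r3 hry)).1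
    have h2 : Real.log y / Real.log r = 2 := by
      rw [← hrr, Real.log_mul (by linarith) (by linarith)]
      field_simp
      ring
    rw [h2] at h1
    have h3 : C / Real.log r ≤ 1 / 6 := by
      rw [div_le_iff₀ hlr0]
      linarith
    have h4 := Real.log_two_gt_d9
    linarith
  have hp1 : ∀ p ∈ I, c / 2 * z * (1 / (p : ℝ)) ≤ (#((Sm (u + 1 / 2) z).filter (fun d => p ∣ d)) : ℝ) := by
    intro p hp
    obtain ⟨q1, q2, q3⟩ := hI1 p hp
    refine one hu (by linarith) hy hr r1 hc q1 q2 q3 (H _ ?_)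
    refine g2.trans ?_
    rw [Real.rpow_sub hz0', Real.rpow_one, ← hy]
    exact div_le_div_of_nonneg_left hz0'.le (by linarith) q3
  have hex : ∑ p ∈ I, #((Sm (u + 1 / 2) z).filter (fun d => p ∣ d)) =
      ∑ d ∈ Sm (u + 1 / 2) z, #(I.filter (fun p => p ∣ d)) := by
    simp only [Finset.card_filter]
    exact Finset.sum_comm
  have hfew : ∀ d ∈ Sm (u + 1 / 2) z, (#(I.filter (fun p => p ∣ d)) : ℝ) ≤ 2 * (u + 1 / 2) := by
    intro d hd
    rw [mem_Sm] at hd
    refine few (by linarith) (le_of_eq ?_) I (fun p hp => ⟨(hI1 p hp).1, (hI1 p hp).2.1⟩) d hd.1.1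
      ((Nat.le_floor_iff hz0'.le).1 hd.1.2)
    rw [hr', ← Real.rpow_mul hz0'.le]
    have h5 : 1 / (2 * u + 1) * (2 * (u + 1 / 2)) = 1 := by
      field_simp
    rw [h5, Real.rpow_one]
  have h6 : c / 2 * z * (1 / 2) ≤ (#(Sm (u + 1 / 2) z) : ℝ) * (2 * (u + 1 / 2)) := by
    calc c / 2 * z * (1 / 2) ≤ c / 2 * z * ∑ p ∈ I, 1 / (p : ℝ) :=
          mul_le_mul_of_nonneg_left hsum (by positivity)
      _ = ∑ p ∈ I, c / 2 * z * (1 / (p : ℝ)) := by rw [Finset.mul_sum]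
      _ ≤ ∑ p ∈ I, (#((Sm (u + 1 / 2) z).filter (fun d => p ∣ d)) : ℝ) := Finset.sum_le_sum hp1
      _ = ∑ d ∈ Sm (u + 1 / 2) z, (#(I.filter (fun p => p ∣ d)) : ℝ) := by exact_mod_cast hex
      _ ≤ ∑ d ∈ Sm (u + 1 / 2) z, 2 * (u + 1 / 2) := Finset.sum_le_sum hfew
      _ = (#(Sm (u + 1 / 2) z) : ℝ) * (2 * (u + 1 / 2)) := by rw [Finset.sum_const, nsmul_eq_mul]
  have h7 : c / (8 * (u + 1 / 2)) * z = c / 2 * z * (1 / 2) / (2 * (u + 1 / 2)) := by
    field_simp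
    ring
  rw [h7, div_le_iff₀ (by positivity)]
  exact h6

theorem Pd_all (j : ℕ) : Pd (1 + (j : ℝ) / 2) := by
  induction j with
  | zero => simpa using Pd_one
  | succ j ih =>
    have h0 : (0 : ℝ) ≤ j := by positivity
    have h1 := Pd_step (u := 1 + (j : ℝ) / 2) (by linarith) ih
    have h2 : 1 + ((j + 1 : ℕ) : ℝ) / 2 = 1 + (j : ℝ) / 2 + 1 / 2 := by
      push_cast
      ring
    rw [h2]
    exact h1

/-- The squarefree z^κ-smooth integers have positive density. -/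
theorem smooth_density (κ : ℝ) (hκ : 0 < κ) : ∃ c z0 : ℝ, 0 < c ∧ 2 ≤ z0 ∧ ∀ (z : ℝ) (S : Finset ℕ), z0 ≤ z →
    (∀ d : ℕ, 1 ≤ d → (d : ℝ) ≤ z → Squarefree d → (∀ p : ℕ, p.Prime → p ∣ d → (p : ℝ) ≤ z ^ κ) → d ∈ S) →
    c * z ≤ (#S : ℝ) := by
  obtain ⟨j, hj⟩ := exists_nat_ge (2 / κ)
  obtain ⟨c, z0, hc, hz0, H⟩ := Pd_all j
  refine ⟨c, z0, hc, hz0, fun z S hz hS => (H z hz).trans ?_⟩
  have h1 : Sm (1 + (j : ℝ) / 2) z ⊆ S := by
    intro d hd
    rw [mem_Sm] at hd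
    refine hS d hd.1.1 ((Nat.le_floor_iff (by linarith)).1 hd.1.2) hd.2.1 fun p hp hpd => (hd.2.2 p hp hpd).trans ?_
    refine Real.rpow_le_rpow_of_exponent_le (by linarith) ?_
    have h2 : (0 : ℝ) ≤ j := by positivity
    rw [div_le_iff₀ (by positivity)]
    rw [div_le_iff₀ hκ] at hj
    nlinarith
  exact_mod_cast Finset.card_le_card h1

end Pool.Agent.Lib.NLD
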