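import Pool.Agent.Lib.NLF.AllF
import Pool.Agent.Lib.NLD.Smd

/-!
MP_00e23e_nt, project NL (all classes, no lock), density (helper10): from the Bombieri-Vinogradov form NlA for all classes it follows
that a positive proportion of all integers d ≤ x^(1/2+δ) are good in all reduced classes (Den), and that all but
x^(1/2+δ)/(log x)^U of the moduli of the family are good in all reduced classes (Exc).
-/

set_option autoImplicit false

namespace Pool.Agent.Lib.NLD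

open Finset Pool.Agent.Results.MP_00e23e_nt
open Pool.Agent.Lib.NLF (NlA Sq Smq)

/-- all reduced classes modulo d contain the right number of primes, up to every y ∈ [2, x] -/
def Good (U x : ℝ) (d : ℕ) : Prop := ∀ (a : ℤ) (y : ℝ), Int.gcd a d = 1 → 2 ≤ y → y ≤ x →
  |resErr y d a| ≤ x / ((d.totient : ℝ) * (Real.log x) ^ U)

/-- few exceptions in the family P -/
def Exc (P : ℝ → ℕ → Prop) (δ : ℝ) : Prop := ∀ U : ℝ, 0 < U → ∃ C : ℝ, 0 ≤ C ∧ ∀ (x : ℝ) (M : Finset ℕ), 3 ≤ x →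
  (∀ d ∈ M, Squarefree d ∧ (d : ℝ) ≤ x ^ (1 / 2 + δ) ∧ P x d ∧ ¬ Good U x d) →
  (#M : ℝ) ≤ C * (x ^ (1 / 2 + δ) / (Real.log x) ^ U)

open Classical in
/-- a positive proportion of all integers d ≤ x^(1/2+δ) is squarefree and good in all classes -/
def Den (δ : ℝ) : Prop := ∃ c : ℝ, 0 < c ∧ ∀ U : ℝ, 0 < U → ∃ x0 : ℝ, ∀ x : ℝ, x0 ≤ x →
  c * x ^ (1 / 2 + δ) ≤ (#((Icc 1 ⌊x ^ (1 / 2 + δ)⌋₊).filter (fun d => Squarefree d ∧ Good U x d)) : ℝ)

theorem exc {P : ℝ → ℕ → Prop} {δ : ℝ} (h : NlA P δ) : Exc P δ := by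
  intro U hU
  obtain ⟨C, hC⟩ := h (2 * U) (by linarith)
  refine ⟨max C 0, le_max_right _ _, fun x M hx hM => ?_⟩
  have hx0 : 0 < x := by linarith
  have hl : 0 < Real.log x := Real.log_pos (by linarith)
  have h1 : ∀ d : ℕ, ∃ p : ℤ × ℝ, (2 ≤ p.2 ∧ p.2 ≤ x) ∧ (d ∈ M → Int.gcd p.1 d = 1 ∧
      x / ((d.totient : ℝ) * (Real.log x) ^ U) < |resErr p.2 d p.1|) := by
    intro d
    by_cases hd : d ∈ M
    · have h2 := (hM d hd).2.2.2
      unfold Good at h2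
      push Not at h2
      obtain ⟨a, y, h3, h4, h5, h6⟩ := h2
      exact ⟨(a, y), ⟨h4, h5⟩, fun _ => ⟨h3, h6⟩⟩
    · exact ⟨(0, 2), ⟨le_rfl, by linarith⟩, fun h => absurd h hd⟩
  choose f hf1 hf2 using h1
  have h2 := hC x (fun d => (f d).1) (fun d => (f d).2) M hx hf1
    (fun d hd => ⟨(hM d hd).1, (hM d hd).2.1, (hM d hd).2.2.1, (hf2 d hd).1⟩)
  have hD : 0 < x ^ (1 / 2 + δ) := by positivity
  have hlU : 0 < (Real.log x) ^ U := by positivity
  have h3 : ∀ d ∈ M, x / (x ^ (1 / 2 + δ) * (Real.log x) ^ U) ≤ |resErr (f d).2 d (f d).1| := by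
    intro d hd
    refine le_trans ?_ (hf2 d hd).2.le
    have h4 : 0 < d.totient := Nat.totient_pos.2 (Nat.pos_of_ne_zero (hM d hd).1.ne_zero)
    have h5 : (d.totient : ℝ) ≤ x ^ (1 / 2 + δ) :=
      le_trans (by exact_mod_cast Nat.totient_le d) (hM d hd).2.1
    have h6 : (0 : ℝ) < d.totient := by exact_mod_cast h4
    exact div_le_div_of_nonneg_left hx0.le (by positivity) (mul_le_mul_of_nonneg_right h5 hlU.le)
  have h4 : (#M : ℝ) * (x / (x ^ (1 / 2 + δ) * (Real.log x) ^ U)) ≤ max C 0 * (x / (Real.log x) ^ (2 * U)) := by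
    calc (#M : ℝ) * (x / (x ^ (1 / 2 + δ) * (Real.log x) ^ U))
        = ∑ _d ∈ M, x / (x ^ (1 / 2 + δ) * (Real.log x) ^ U) := by rw [Finset.sum_const, nsmul_eq_mul]
      _ ≤ ∑ d ∈ M, |resErr (f d).2 d (f d).1| := Finset.sum_le_sum h3
      _ ≤ C * (x / (Real.log x) ^ (2 * U)) := h2
      _ ≤ max C 0 * (x / (Real.log x) ^ (2 * U)) :=
          mul_le_mul_of_nonneg_right (le_max_left _ _) (by positivity)
  have h5 : (Real.log x) ^ (2 * U) = (Real.log x) ^ U * (Real.log x) ^ U := by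
    rw [← Real.rpow_add hl]
    congr 1
    ring
  rw [h5] at h4
  have h6 : (#M : ℝ) = (#M : ℝ) * (x / (x ^ (1 / 2 + δ) * (Real.log x) ^ U)) *
      (x ^ (1 / 2 + δ) * (Real.log x) ^ U / x) := by
    field_simp
  rw [h6]
  calc (#M : ℝ) * (x / (x ^ (1 / 2 + δ) * (Real.log x) ^ U)) * (x ^ (1 / 2 + δ) * (Real.log x) ^ U / x)
      ≤ max C 0 * (x / ((Real.log x) ^ U * (Real.log x) ^ U)) * (x ^ (1 / 2 + δ) * (Real.log x) ^ U / x) :=
        mul_le_mul_of_nonneg_right h4 (by positivity)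
    _ = max C 0 * (x ^ (1 / 2 + δ) / (Real.log x) ^ U) := by
        field_simp

theorem den {P : ℝ → ℕ → Prop} {δ : ℝ} (hδ : 0 < δ) (hδ1 : δ ≤ 1 / 2) (hP : ∀ (x : ℝ) (d : ℕ), 3 ≤ x → Sq δ x d → P x d)
    (h : NlA P δ) : Den δ := by
  classical
  obtain ⟨c, z0, hc, hz0, hS⟩ := smooth_density δ hδ
  refine ⟨c / 2, by positivity, fun U hU => ?_⟩
  obtain ⟨C, hC0, hC⟩ := exc h U hU
  have e1 := (tendsto_rpow_atTop (show 0 < 1 / 2 + δ by linarith)).eventually_ge_atTop z0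
  have e2 := ((tendsto_rpow_atTop hU).comp Real.tendsto_log_atTop).eventually_ge_atTop (2 * C / c)
  obtain ⟨x1, hx1⟩ := Filter.eventually_atTop.1 (e1.and e2)
  refine ⟨max x1 3, fun x hx => ?_⟩
  have hx3 : 3 ≤ x := (le_max_right _ _).trans hx
  obtain ⟨g1, g2⟩ := hx1 x ((le_max_left _ _).trans hx)
  simp only [Function.comp] at g2
  have hl : 0 < Real.log x := Real.log_pos (by linarith)
  have hlU : 0 < (Real.log x) ^ U := by positivity
  have hD : 0 < x ^ (1 / 2 + δ) := by positivity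
  set D := ⌊x ^ (1 / 2 + δ)⌋₊ with hDn
  have hDx : x ^ (1 / 2 + δ) ≤ x := by
    conv_rhs => rw [← Real.rpow_one x]
    exact Real.rpow_le_rpow_of_exponent_le (by linarith) (by linarith)
  have h1 := hS (x ^ (1 / 2 + δ)) ((Icc 1 D).filter (fun d => Squarefree d ∧ Sq δ x d)) g1 (by
    intro d d1 d2 d3 d4
    rw [Finset.mem_filter, Finset.mem_Icc]
    refine ⟨⟨d1, Nat.le_floor d2⟩, d3, fun p hp hpd => (d4 p hp hpd).trans ?_⟩
    exact Real.rpow_le_rpow hD.le hDx hδ.le)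
  have h2 : #((Icc 1 D).filter (fun d => Squarefree d ∧ Sq δ x d)) ≤
      #((Icc 1 D).filter (fun d => Squarefree d ∧ Good U x d)) +
      #((Icc 1 D).filter (fun d => (Squarefree d ∧ Sq δ x d) ∧ ¬ Good U x d)) := by
    refine le_trans (Finset.card_le_card ?_) (Finset.card_union_le _ _)
    intro d hd
    rw [Finset.mem_filter] at hd
    rw [Finset.mem_union, Finset.mem_filter, Finset.mem_filter]
    by_cases hg : Good U x d
    · exact Or.inl ⟨hd.1, hd.2.1, hg⟩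
    · exact Or.inr ⟨hd.1, hd.2, hg⟩
  have h3 := hC x ((Icc 1 D).filter (fun d => (Squarefree d ∧ Sq δ x d) ∧ ¬ Good U x d)) hx3 (by
    intro d hd
    rw [Finset.mem_filter, Finset.mem_Icc] at hd
    exact ⟨hd.2.1.1, (Nat.le_floor_iff hD.le).1 hd.1.2, hP x d hx3 hd.2.1.2, hd.2.2⟩)
  have h4 : (#((Icc 1 D).filter (fun d => Squarefree d ∧ Sq δ x d)) : ℝ) ≤
      (#((Icc 1 D).filter (fun d => Squarefree d ∧ Good U x d)) : ℝ) +
      (#((Icc 1 D).filter (fun d => (Squarefree d ∧ Sq δ x d) ∧ ¬ Good U x d)) : ℝ) := by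
    exact_mod_cast h2
  have h5 : C * (x ^ (1 / 2 + δ) / (Real.log x) ^ U) ≤ c / 2 * x ^ (1 / 2 + δ) := by
    rw [← mul_div_assoc, div_le_iff₀ hlU]
    rw [div_le_iff₀ hc] at g2
    nlinarith [mul_le_mul_of_nonneg_right g2 hD.le]
  linarith

/-- the form with a divisor m ≤ x^μ -/
theorem den_Smq {μ δ : ℝ} (hμ : 0 ≤ μ) (hδ : 0 < δ) (hδ1 : δ ≤ 1 / 2) (h : NlA (Smq μ δ) δ) : Den δ := by
  refine den hδ hδ1 (fun x d hx hd => ⟨1, one_dvd d, ?_, ?_⟩) h
  · rw [Nat.cast_one]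
    exact Real.one_le_rpow (by linarith) hμ
  · rw [Nat.div_one]
    exact hd

end Pool.Agent.Lib.NLD
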